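import Mathlib
import Pool.Agent.H49.CZ.Stm

set_option autoImplicit false

open Module Pool.Agent.H77.TF Pool.Agent.H77.GR

namespace Pool.Agent.H23.CZ

open Pool.Agent.H49.CZ

theorem map_ne_zero_of_inv {K : Type} [Field K] {R : Subring K} {k : Type} [Field k] (φ : R →+* k)
    (x : R) (hx : (x : K) ≠ 0) (hi : (x : K)⁻¹ ∈ R) : φ x ≠ 0 := by
  have h1 : x * ⟨(x : K)⁻¹, hi⟩ = 1 := by
    apply Subtype.ext
    simp [hx]
  intro h
  have h2 := congrArg φ h1
  rw [map_mul, h, zero_mul, map_one] at h2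
  exact zero_ne_one h2

theorem t_BIG : S_BIG := by
  intro K _ _ a b ha
  classical
  obtain ⟨s, hs⟩ := Infinite.exists_subset_card_eq K (b + 1)
  refine ⟨(Finset.range a).image (fun j : ℕ => ((j : K))⁻¹) ∪ s ∪
    (s ×ˢ s).image (fun p => (p.1 - p.2)⁻¹), ?_⟩
  intro R hR k _ _ φ
  have h1 : ∀ j : ℕ, j < a → ((j : K))⁻¹ ∈ R := by
    intro j hj
    apply hR
    simp only [Finset.coe_union, Set.mem_union, Finset.mem_coe, Finset.mem_image, Finset.mem_range]
    exact Or.inl (Or.inl ⟨j, hj, rfl⟩)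
  have h2 : ∀ x ∈ s, x ∈ R := by
    intro x hx
    apply hR
    simp only [Finset.coe_union, Set.mem_union, Finset.mem_coe]
    exact Or.inl (Or.inr hx)
  have h3 : ∀ x ∈ s, ∀ y ∈ s, (x - y)⁻¹ ∈ R := by
    intro x hx y hy
    apply hR
    simp only [Finset.coe_union, Set.mem_union, Finset.mem_coe, Finset.mem_image]
    exact Or.inr ⟨(x, y), Finset.mem_product.2 ⟨hx, hy⟩, rfl⟩
  constructor
  · intro j hj0 hja
    have := map_ne_zero_of_inv φ ((j : ℕ) : R) (by simpa using ha j hj0 hja)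
      (by simpa using h1 j hja)
    simpa using this
  · let f : s → k := fun x => φ ⟨x.1, h2 x.1 x.2⟩
    have hf : Function.Injective f := by
      intro x y hxy
      by_contra hne
      have hne' : x.1 ≠ y.1 := fun h => hne (Subtype.ext h)
      have h4 := map_ne_zero_of_inv φ (⟨x.1, h2 x.1 x.2⟩ - ⟨y.1, h2 y.1 y.2⟩ : R)
        (by
          show x.1 - y.1 ≠ 0
          exact sub_ne_zero.2 hne')
        (h3 x.1 x.2 y.1 y.2)
      rw [map_sub] at h4
      exact h4 (sub_eq_zero.2 hxy)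
    have h5 := Fintype.card_le_of_injective f hf
    rw [Fintype.card_coe, hs] at h5
    omega

end Pool.Agent.H23.CZ
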